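import Pool.Agent.W787.PS.StmC

/-!
# Project PS: basic facts on the completion H1
-/

open MeasureTheory Set Filter Topology

noncomputable section

namespace Pool.Agent.W11.PSH

open Pool.Agent.W787.PS

variable {M : Type} [TopologicalSpace M] [CompactSpace M] [MeasurableSpace M] [BorelSpace M]
  (G : Geo M)

theorem toL2_coe (u : G.SmH) : G.toL2 (u : G.H1) = (G.memLp u).toLp (Geo.fn u) :=
  ContinuousLinearMap.extend_eq G.toL2s (e := UniformSpace.Completion.toComplL (𝕜 := ℝ)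
    (E := G.SmH)) UniformSpace.Completion.denseRange_coe
    (UniformSpace.Completion.isUniformInducing_coe _) u

theorem norm_toL2s (u : G.SmH) : ‖(G.memLp u).toLp (Geo.fn u)‖ ≤ ‖u‖ := by
  have h1 : ‖G.toL2l u‖ ^ 2 ≤ ‖u‖ ^ 2 := by
    have h3 : 0 ≤ G.dir (Geo.fn u) (Geo.fn u) := integral_nonneg fun x => G.gip_nonneg _ u.2 x
    rw [G.norm_toL2l u, G.norm_sq u]; linarith
  exact (abs_le_of_sq_le_sq' h1 (norm_nonneg _)).2

theorem norm_toL2 (U : G.H1) : ‖G.toL2 U‖ ≤ ‖U‖ := by
  refine UniformSpace.Completion.induction_on (p := fun U : G.H1 => ‖G.toL2 U‖ ≤ ‖U‖) U ?_ ?_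
  · exact isClosed_le (by fun_prop) (by fun_prop)
  · intro u
    rw [toL2_coe, UniformSpace.Completion.norm_coe]
    exact norm_toL2s G u

theorem h1z : S_H1Z := by
  intro M _ _ _ _ G
  refine ⟨toL2_coe G, norm_toL2 G, ?_, ?_, ?_⟩
  · intro u
    rw [UniformSpace.Completion.norm_coe, G.norm_sq]
    rfl
  · intro u v
    rw [UniformSpace.Completion.inner_coe, G.inner_eq]
  · intro U
    have hd : U ∈ closure (Set.range ((↑) : G.SmH → G.H1)) :=
      UniformSpace.Completion.denseRange_coe U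
    obtain ⟨x, hx, hxU⟩ := mem_closure_iff_seq_limit.1 hd
    choose u hu using hx
    have hxu : (fun k => ((u k : G.SmH) : G.H1)) = x := funext hu
    rw [← hxu] at hxU
    have h2 : Tendsto (fun k => G.toL2 ((u k : G.SmH) : G.H1)) atTop (𝓝 (G.toL2 U)) :=
      (G.toL2.continuous.tendsto U).comp hxU
    obtain ⟨ns, hns, hae⟩ := (tendstoInMeasure_of_tendsto_Lp h2).exists_seq_tendsto_ae
    refine ⟨fun k => u (ns k), hxU.comp hns.tendsto_atTop, ?_⟩
    have h3 : ∀ k, ∀ᵐ x ∂G.vol, G.toL2 ((u (ns k) : G.SmH) : G.H1) x = Geo.fn (u (ns k)) x := by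
      intro k
      rw [toL2_coe]
      exact (G.memLp (u (ns k))).coeFn_toLp
    filter_upwards [hae, ae_all_iff.2 h3] with x h4 h5
    refine h4.congr fun k => ?_
    exact h5 k

end Pool.Agent.W11.PSH
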