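import Pool.Agent.W606.PS.Stm

/-! Project PS (planar product structure): PS-PART. -/

set_option autoImplicit false

open Set Relation

namespace Pool.Agent.W11.PSPart

open Pool.Agent.W606.PS

/-- Joining two disjoint sets inside a connected set. -/
theorem join {X : Type} {L : SimpleGraph X} {R S S' : Set X} (hR : Con L R) (hS : Con L S)
    (h1 : (R ∩ S).Nonempty) (h2 : (R ∩ S').Nonempty) (hd : Disjoint S S')
    (ht : ¬ Tch L S S') :
    ∃ P : Set X, P ⊆ R ∧ Disjoint P S ∧ Disjoint P S' ∧ Con L (S ∪ P) ∧ Tch L P S' := by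
  set D : Set X := R \ (S ∪ S') with hD
  set P : Set X := {x | ∃ K, IsComp L D K ∧ x ∈ K ∧ Tch L K S} with hP
  have hPD : ∀ x ∈ P, x ∈ D := by
    rintro x ⟨K, hK, hx, -⟩
    exact hK.1 hx
  refine ⟨P, fun x hx => (hPD x hx).1, ?_, ?_, ?_, ?_⟩
  · rw [Set.disjoint_left]
    exact fun x hx hxS => (hPD x hx).2 (Or.inl hxS)
  · rw [Set.disjoint_left]
    exact fun x hx hxS => (hPD x hx).2 (Or.inr hxS)
  · refine con_of_cover hS subset_union_left ?_
    rintro v (hv | ⟨K, hK, hvK, hKS⟩)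
    · exact ⟨S, hv, subset_union_left, hS, by rw [inter_self]; exact hS.1⟩
    · refine ⟨S ∪ K, Or.inr hvK, ?_, hS.union_tch hK.2.1 hKS.symm, ?_⟩
      · rintro w (hw | hw)
        · exact Or.inl hw
        · exact Or.inr ⟨K, hK, hw, hKS⟩
      · obtain ⟨s, hs⟩ := hS.1
        exact ⟨s, Or.inl hs, hs⟩
  · by_contra hcon
    obtain ⟨u, huR, huS⟩ := h1
    obtain ⟨v, hvR, hvS⟩ := h2
    have hvA : v ∉ (R ∩ S) ∪ P := by
      rintro (h | h)
      · exact Set.disjoint_left.1 hd h.2 hvS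
      · exact (hPD v h).2 (Or.inr hvS)
    obtain ⟨a, b, haR, hbR, haA, hbA, hab⟩ := hR.exit (A := (R ∩ S) ∪ P) huR
      (Or.inl ⟨huR, huS⟩) hvR hvA
    have hbS : b ∉ S := fun h => hbA (Or.inl ⟨hbR, h⟩)
    have hbS' : b ∉ S' := by
      intro h
      rcases haA with h' | h'
      · exact ht ⟨a, h'.2, b, h, hab⟩
      · exact hcon ⟨a, h', b, h, hab⟩
    have hbD : b ∈ D := ⟨hbR, by rintro (h | h); exacts [hbS h, hbS' h]⟩
    rcases haA with h' | ⟨K, hK, haK, hKS⟩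
    · obtain ⟨K, hK, hbK⟩ := exists_comp L hbD
      exact hbA (Or.inr ⟨K, hK, hbK, b, hbK, a, h'.2, hab.symm⟩)
    · exact hbA (Or.inr ⟨K, hK, hK.2.2 a haK b hbD hab, hKS⟩)

theorem main : S_PART := by
  intro A X _ _ _ G₀ L Cv Ce hL hM
  obtain ⟨mv, me, mvv, mev, mneu, mee⟩ := hM
  classical
  -- chosen order of the ends
  set o : Sym2 A → A × A := fun e => Quot.out e with ho
  have hoe : ∀ e : Sym2 A, s((o e).1, (o e).2) = e := by
    intro e
    exact Quot.out_eq e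
  have ho1 : ∀ e : Sym2 A, (o e).1 ∈ e := fun e => by
    have h := Sym2.mem_mk_left (o e).1 (o e).2
    rwa [hoe e] at h
  have ho2 : ∀ e : Sym2 A, (o e).2 ∈ e := fun e => by
    have h := Sym2.mem_mk_right (o e).1 (o e).2
    rwa [hoe e] at h
  have hoA : ∀ e ∈ G₀.edgeSet, G₀.Adj (o e).1 (o e).2 := by
    intro e he
    rw [← hoe e, SimpleGraph.mem_edgeSet] at he
    exact he
  have hex : ∀ e : Sym2 A, ∃ P : Set X, e ∈ G₀.edgeSet →
      (P ⊆ Ce e ∧ Disjoint P (Cv (o e).1) ∧ Disjoint P (Cv (o e).2) ∧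
        Con L (Cv (o e).1 ∪ P) ∧ Tch L P (Cv (o e).2)) := by
    intro e
    by_cases he : e ∈ G₀.edgeSet
    · have hne : (o e).1 ≠ (o e).2 := (hoA e he).ne
      obtain ⟨P, hP⟩ := join (me e he) (mv (o e).1) (mev e he _ (ho1 e)) (mev e he _ (ho2 e))
        (mvv _ _ hne).1 (mvv _ _ hne).2
      exact ⟨P, fun _ => hP⟩
    · exact ⟨∅, fun h => absurd h he⟩
  choose P hP using hex
  set B : A → Set X := fun u => {x | x ∈ Cv u ∨ ∃ e ∈ G₀.edgeSet, (o e).1 = u ∧ x ∈ P e} with hB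
  have hCB : ∀ u, Cv u ⊆ B u := fun u x hx => Or.inl hx
  have hPB : ∀ e ∈ G₀.edgeSet, P e ⊆ B (o e).1 := fun e he x hx => Or.inr ⟨e, he, rfl, hx⟩
  have hBcon : ∀ u, Con L (B u) := by
    intro u
    refine con_of_cover (mv u) (hCB u) ?_
    rintro v (hv | ⟨e, he, hu, hv⟩)
    · exact ⟨Cv u, hv, hCB u, mv u, by rw [inter_self]; exact (mv u).1⟩
    · have h4 := (hP e he).2.2.2.1
      rw [hu] at h4
      refine ⟨Cv u ∪ P e, Or.inr hv, ?_, h4, ?_⟩
      · rintro w (hw | hw)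
        · exact Or.inl hw
        · exact Or.inr ⟨e, he, hu, hw⟩
      · obtain ⟨s, hs⟩ := (mv u).1
        exact ⟨s, Or.inl hs, hs⟩
  -- an end of e different from the first one is the second one
  have hend : ∀ (e : Sym2 A) (u : A), u ∈ e → u ≠ (o e).1 → u = (o e).2 := by
    intro e u hu hne
    rw [← hoe e, Sym2.mem_iff] at hu
    rcases hu with h | h
    · exact absurd h hne
    · exact h
  have hdisj1 : ∀ u v, u ≠ v → ∀ x ∈ Cv u, ∀ e ∈ G₀.edgeSet, (o e).1 = v → x ∉ P e := by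
    intro u v huv x hx e he hv hxP
    by_cases hu : u ∈ e
    · have h5 := hend e u hu (by rw [hv]; exact huv)
      exact Set.disjoint_left.1 (hP e he).2.2.1 hxP (h5 ▸ hx)
    · exact Set.disjoint_left.1 (mneu e he u hu).1 ((hP e he).1 hxP) hx
  have hBdisj : ∀ u v, ∀ x, x ∈ B u → x ∈ B v → u = v := by
    intro u v x hu hv
    by_contra huv
    rcases hu with hu | ⟨e, he, heu, hu⟩ <;> rcases hv with hv | ⟨e', he', hev, hv⟩
    · exact Set.disjoint_left.1 (mvv u v huv).1 hu hv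
    · exact hdisj1 u v huv x hu e' he' hev hv
    · exact hdisj1 v u (Ne.symm huv) x hv e he heu hu
    · have hee : e ≠ e' := by
        rintro rfl
        exact huv (heu.symm.trans hev)
      exact Set.disjoint_left.1 (mee e he e' he' hee).1 ((hP e he).1 hu) ((hP e' he').1 hv)
  have htch1 : ∀ u v, u ≠ v → ∀ x ∈ Cv u, ∀ e ∈ G₀.edgeSet, (o e).1 = v → ∀ y ∈ P e,
      L.Adj x y → G₀.Adj u v := by
    intro u v huv x hx e he hv y hy hxy
    by_cases hu : u ∈ e
    · have h5 := hend e u hu (by rw [hv]; exact huv)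
      have h6 := hoA e he
      rw [hv, ← h5] at h6
      exact h6.symm
    · exact absurd ⟨y, (hP e he).1 hy, x, hx, hxy.symm⟩ (mneu e he u hu).2
  have hBtch : ∀ u v, u ≠ v → (Tch L (B u) (B v) ↔ G₀.Adj u v) := by
    intro u v huv
    constructor
    · rintro ⟨x, hx, y, hy, hxy⟩
      rcases hx with hx | ⟨e, he, heu, hx⟩ <;> rcases hy with hy | ⟨e', he', hev, hy⟩
      · exact absurd ⟨x, hx, y, hy, hxy⟩ (mvv u v huv).2
      · exact htch1 u v huv x hx e' he' hev y hy hxy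
      · exact (htch1 v u (Ne.symm huv) y hy e he heu x hx hxy.symm).symm
      · have hee : e ≠ e' := by
          rintro rfl
          exact huv (heu.symm.trans hev)
        exact absurd ⟨x, (hP e he).1 hx, y, (hP e' he').1 hy, hxy⟩ (mee e he e' he' hee).2
    · intro h
      have he : s(u, v) ∈ G₀.edgeSet := h
      have h1 := hoe s(u, v)
      rw [Sym2.eq_iff] at h1
      obtain ⟨x, hx, y, hy, hxy⟩ := (hP _ he).2.2.2.2
      have h2 := hPB _ he hx
      rcases h1 with ⟨h3, h4⟩ | ⟨h3, h4⟩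
      · rw [h3] at h2
        rw [h4] at hy
        exact ⟨x, h2, y, hCB v hy, hxy⟩
      · rw [h3] at h2
        rw [h4] at hy
        exact ⟨y, hCB u hy, x, h2, hxy.symm⟩
  -- the faces
  set R : Set X := {x | ∀ u, x ∉ B u} with hR
  let W : Type := {K : Set X // IsComp L R K}
  have : Finite W := inferInstanceAs (Finite {K : Set X // IsComp L R K})
  let Mem : X → A ⊕ W → Prop := fun x z => Sum.elim (fun u => x ∈ B u) (fun K => x ∈ K.1) z
  have hMex : ∀ x, ∃ z, Mem x z := by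
    intro x
    by_cases hx : ∃ u, x ∈ B u
    · obtain ⟨u, hu⟩ := hx
      exact ⟨Sum.inl u, hu⟩
    · push Not at hx
      obtain ⟨K, hK, hxK⟩ := exists_comp L (S := R) (u := x) hx
      exact ⟨Sum.inr ⟨K, hK⟩, hxK⟩
  have hMun : ∀ x z z', Mem x z → Mem x z' → z = z' := by
    rintro x (u | K) (v | K') h h'
    · rw [hBdisj u v x h h']
    · exact absurd h (K'.2.1 h' u)
    · exact absurd h' (K.2.1 h v)
    · have : K.1 = K'.1 := K.2.eq_of_inter K'.2 ⟨x, h, h'⟩
      rw [Subtype.ext this]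
  choose f hf using hMex
  have hfM : ∀ x z, f x = z ↔ Mem x z := fun x z =>
    ⟨fun h => h ▸ hf x, fun h => hMun x _ _ (hf x) h⟩
  refine ⟨W, Fintype.ofFinite W,
    { Adj := fun u v => u ≠ v ∧ ∃ x y, f x = u ∧ f y = v ∧ L.Adj x y
      symm := ⟨by
        rintro u v ⟨h, x, y, hx, hy, hxy⟩
        exact ⟨h.symm, y, x, hy, hx, hxy.symm⟩⟩
      loopless := ⟨by
        rintro u ⟨h, -⟩
        exact h rfl⟩ }, f, ?_, ?_, fun u v => Iff.rfl, ?_, ?_⟩
  · rintro (u | K)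
    · obtain ⟨x, hx⟩ := (hBcon u).1
      exact ⟨x, (hfM x _).2 hx⟩
    · obtain ⟨x, hx⟩ := K.2.2.1.1
      exact ⟨x, (hfM x _).2 hx⟩
  · rintro (u | K)
    · have h7 : f ⁻¹' {Sum.inl u} = B u := by
        ext x
        exact hfM x (Sum.inl u)
      rw [h7]
      exact hBcon u
    · have h7 : f ⁻¹' {Sum.inr K} = K.1 := by
        ext x
        exact hfM x (Sum.inr K)
      rw [h7]
      exact K.2.2.1
  · intro a b
    constructor
    · rintro ⟨h, x, y, hx, hy, hxy⟩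
      have hab : a ≠ b := fun hh => h (by rw [hh])
      exact (hBtch a b hab).1 ⟨x, (hfM x _).1 hx, y, (hfM y _).1 hy, hxy⟩
    · intro h
      obtain ⟨x, hx, y, hy, hxy⟩ := (hBtch a b h.ne).2 h
      exact ⟨fun hh => h.ne (Sum.inl_injective hh), x, y, (hfM x _).2 hx, (hfM y _).2 hy, hxy⟩
  · rintro w w' ⟨h, x, y, hx, hy, hxy⟩
    have hxw : x ∈ w.1 := (hfM x _).1 hx
    have hyw : y ∈ w'.1 := (hfM y _).1 hy
    have hyw2 : y ∈ w.1 := w.2.2.2 x hxw y (w'.2.1 hyw) hxy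
    have h8 : w.1 = w'.1 := w.2.eq_of_inter w'.2 ⟨y, hyw2, hyw⟩
    exact h (by rw [Subtype.ext h8])

end Pool.Agent.W11.PSPart
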