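import Pool.Agent.W787.PS.StmA

/-!
# Project PS: reverse Jensen inequality at all scales and consequences
-/

open MeasureTheory Set Metric Filter Topology

noncomputable section

namespace Pool.Agent.W11.PSR

open Pool.Agent.W787.PS

lemma vol_ball (a : ℂ) (r : ℝ) (hr : 0 ≤ r) : (volume (ball a r)).toReal = Real.pi * r ^ 2 := by
  rw [Complex.volume_ball, ENNReal.toReal_mul, ENNReal.toReal_pow, ENNReal.toReal_ofReal hr]
  simp [mul_comm]

lemma avg_const (c : ℝ) (a : ℂ) (r : ℝ) (hr : 0 < r) : avg (fun _ => c) a r = c := by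
  unfold avg
  rw [setIntegral_const, smul_eq_mul, Measure.real, vol_ball a r hr.le]
  have : Real.pi * r ^ 2 ≠ 0 := by positivity
  field_simp

lemma avg_add (f g : ℂ → ℝ) (a : ℂ) (r : ℝ) (hf : IntegrableOn f (ball a r))
    (hg : IntegrableOn g (ball a r)) :
    avg (fun x => f x + g x) a r = avg f a r + avg g a r := by
  unfold avg
  rw [integral_add hf hg, mul_add]

lemma avg_congr (f g : ℂ → ℝ) (a : ℂ) (r : ℝ) (h : ∀ x ∈ ball a r, f x = g x) :
    avg f a r = avg g a r := by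
  unfold avg
  rw [setIntegral_congr_fun measurableSet_ball h]

variable {Λ R L ε : ℝ} {ρ g w : ℂ → ℝ}

lemma pos_of (h : IsDatum Λ R L ε ρ g w) {x : ℂ} (hx : x ∈ ball (0 : ℂ) R) : 0 < ρ x := by
  rw [h.eq x hx]; exact Real.exp_pos _

lemma ball_sub {a : ℂ} {s : ℝ} (h : ‖a‖ + s ≤ R) : ball a s ⊆ ball (0 : ℂ) R := by
  intro x hx
  rw [mem_ball, dist_eq_norm] at hx
  rw [mem_ball_zero_iff]
  calc ‖x‖ = ‖a + (x - a)‖ := by ring_nf
    _ ≤ ‖a‖ + ‖x - a‖ := norm_add_le _ _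
    _ < ‖a‖ + s := by linarith
    _ ≤ R := h

lemma cball_sub {a : ℂ} {s : ℝ} (h : ‖a‖ + s < R) : closedBall a s ⊆ ball (0 : ℂ) R := by
  intro x hx
  rw [mem_closedBall, dist_eq_norm] at hx
  rw [mem_ball_zero_iff]
  calc ‖x‖ = ‖a + (x - a)‖ := by ring_nf
    _ ≤ ‖a‖ + ‖x - a‖ := norm_add_le _ _
    _ ≤ ‖a‖ + s := by linarith
    _ < R := h

lemma int_rho (h : IsDatum Λ R L ε ρ g w) : Integrable ρ :=
  h.diff.continuous.integrable_of_hasCompactSupport h.supp

lemma ms_le (h : IsDatum Λ R L ε ρ g w) (a : ℂ) (s : ℝ) : ms ρ a s ≤ Λ :=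
  (setIntegral_le_integral (int_rho h) (Eventually.of_forall h.nonneg)).trans h.mass

lemma ms_nonneg (h : IsDatum Λ R L ε ρ g w) (a : ℂ) (s : ℝ) : 0 ≤ ms ρ a s :=
  setIntegral_nonneg measurableSet_ball fun x _ => h.nonneg x

/-- Reverse Jensen inequality at all scales. -/
theorem rjs (h1 : S_RJ) (h2 : S_SCAL) (h3 : S_SCM) (h4 : S_MONO) : S_RJS := by
  intro τ q Λ C₀ hτ hq hqτ hΛ hC₀
  obtain ⟨ε, C, hε, hC, H⟩ := h1 τ q Λ C₀ hτ hq hqτ hΛ hC₀
  refine ⟨ε, C, hε, hC, ?_⟩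
  intro R L ρ g w hL hD a s hs hR hsL hms
  have hD' := h2 Λ R L ε ρ g w hD a s 4 hs (by norm_num) (by linarith)
  have hsL0 : 0 ≤ s * L := by positivity
  have hD'' := h4 Λ 4 (s * L) ε 4 C₀ ε _ _ _ hD' le_rfl (by nlinarith) le_rfl
  have hms' : ms (scρ ρ a s) 0 4 ≤ τ := by
    rw [h3.2.1 ρ a 0 s 4 hs, mul_zero, add_zero, mul_comm]
    exact hms
  have key := H _ _ _ hD'' hms'
  -- left side
  have hs2 : (0 : ℝ) < s ^ 2 := by positivity
  have e1 : ∫ x in ball (0 : ℂ) 1, (scρ ρ a s x) ^ q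
      = (s ^ 2) ^ q / s ^ 2 * ∫ x in ball a s, ρ x ^ q := by
    have h5 := h3.2.1 (fun x => ρ x ^ q) a 0 s 1 hs
    rw [mul_zero, add_zero, mul_one] at h5
    unfold ms at h5
    rw [← h5, ← integral_const_mul]
    refine integral_congr_ae (Eventually.of_forall fun y => ?_)
    simp only [scρ]
    rw [Real.mul_rpow hs2.le (hD.nonneg _)]
    field_simp
  -- right side
  have hmem : ∀ y ∈ closedBall (0 : ℂ) 1, a + (s : ℂ) * y ∈ ball (0 : ℂ) R := by
    intro y hy
    rw [mem_closedBall_zero_iff] at hy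
    apply cball_sub (a := a) (s := s) (by linarith)
    rw [mem_closedBall, dist_eq_norm, add_sub_cancel_left, norm_mul, Complex.norm_real,
      Real.norm_of_nonneg hs.le]
    nlinarith
  have e2 : avg (fun x => Real.log (scρ ρ a s x)) 0 1
      = Real.log (s ^ 2) + avg (fun x => Real.log (ρ x)) a s := by
    have e3 : avg (fun x => Real.log (scρ ρ a s x)) 0 1
        = avg (fun x => Real.log (s ^ 2) + Real.log (ρ (a + (s : ℂ) * x))) 0 1 := by
      apply avg_congr
      intro x hx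
      simp only [scρ]
      rw [Real.log_mul hs2.ne' (pos_of hD (hmem x (ball_subset_closedBall hx))).ne']
    rw [e3, avg_add, avg_const _ _ _ one_pos]
    · have h6 := h3.1 (fun x => Real.log (ρ x)) a 0 s 1 hs
      rw [mul_zero, add_zero, mul_one] at h6
      rw [h6]
    · exact integrableOn_const (by rw [Complex.volume_ball]; finiteness)
    · have hcont : ContinuousOn (fun x : ℂ => Real.log (ρ (a + (s : ℂ) * x)))
          (closedBall (0 : ℂ) 1) := by
        apply ContinuousOn.log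
        · exact (hD.diff.continuous.comp (by fun_prop)).continuousOn
        · intro x hx
          exact (pos_of hD (hmem x hx)).ne'
      exact (hcont.integrableOn_compact (isCompact_closedBall 0 1)).mono_set
        ball_subset_closedBall
  rw [e1, e2] at key
  have e4 : Real.exp (q * (Real.log (s ^ 2) + avg (fun x => Real.log (ρ x)) a s))
      = (s ^ 2) ^ q * Real.exp (q * avg (fun x => Real.log (ρ x)) a s) := by
    rw [mul_add, Real.exp_add, Real.rpow_def_of_pos hs2, mul_comm (Real.log (s ^ 2)) q]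
  rw [e4] at key
  have hp : 0 < (s ^ 2) ^ q := Real.rpow_pos_of_pos hs2 q
  have hk : (s ^ 2) ^ q * (∫ x in ball a s, ρ x ^ q) ≤
      (s ^ 2) ^ q * (C * s ^ 2 * Real.exp (q * avg (fun x => Real.log (ρ x)) a s)) := by
    calc (s ^ 2) ^ q * (∫ x in ball a s, ρ x ^ q)
        = s ^ 2 * ((s ^ 2) ^ q / s ^ 2 * ∫ x in ball a s, ρ x ^ q) := by
          field_simp
      _ ≤ s ^ 2 * (C * ((s ^ 2) ^ q * Real.exp (q * avg (fun x => Real.log (ρ x)) a s))) :=
          mul_le_mul_of_nonneg_left key hs2.le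
      _ = _ := by ring
  exact le_of_mul_le_mul_left hk hp

/-- Upper bound for the geometric mean. -/
lemma geo (h2 : S_JEN) (h : IsDatum Λ R L ε ρ g w) {a : ℂ} {s : ℝ} (hs : 0 < s)
    (haR : ‖a‖ + s < R) :
    Real.exp (avg (fun x => Real.log (ρ x)) a s) ≤ Λ / (Real.pi * s ^ 2) := by
  have h5 := (h2 Λ R L ε ρ g w h a s hs haR).trans (ms_le h a s)
  rw [le_div_iff₀ (by positivity)]
  linarith

lemma exp_q (h2 : S_JEN) (h : IsDatum Λ R L ε ρ g w) {a : ℂ} {s q : ℝ} (hs : 0 < s)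
    (haR : ‖a‖ + s < R) (hq : 0 ≤ q) :
    Real.exp (q * avg (fun x => Real.log (ρ x)) a s) ≤ (Λ / (Real.pi * s ^ 2)) ^ q := by
  have h5 := geo h2 h hs haR
  calc Real.exp (q * avg (fun x => Real.log (ρ x)) a s)
      = (Real.exp (avg (fun x => Real.log (ρ x)) a s)) ^ q := by
        rw [← Real.exp_mul, mul_comm]
    _ ≤ _ := Real.rpow_le_rpow (Real.exp_pos _).le h5 hq

/-- A bound for the integral of a power, for sequences. -/
lemma powb (h1 : S_RJS) (h2 : S_JEN) (𝒰 : Ultrafilter ℕ) (Λ R L : ℝ) (ρ g w : ℕ → ℂ → ℝ)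
    (hL : 0 ≤ L) (hΛ : 0 ≤ Λ) (hS : IsSeq 𝒰 Λ R L ρ g w) (a : ℂ) (r τ q : ℝ) (hr : 0 < r)
    (haR : ‖a‖ + r ≤ R) (hτ : 0 < τ) (hq : 1 ≤ q) (hqτ : q * τ < 4 * Real.pi)
    (hm : ∀ᶠ n in (𝒰 : Filter ℕ), ms (ρ n) a r ≤ τ) :
    ∃ C : ℝ, 0 ≤ C ∧ ∀ᶠ n in (𝒰 : Filter ℕ), ∫ x in ball a (r / 4), ρ n x ^ q ≤ C := by
  obtain ⟨ε, C, hε, hC, H⟩ := h1 τ q Λ (r / 4 * L) hτ hq hqτ hΛ (by positivity)
  refine ⟨C * (r / 4) ^ 2 * (Λ / (Real.pi * (r / 4) ^ 2)) ^ q, by positivity, ?_⟩
  filter_upwards [hm, hS ε hε] with n hn hd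
  have h5 := H R L (ρ n) (g n) (w n) hL hd a (r / 4) (by positivity) (by linarith) le_rfl
    (by rw [show 4 * (r / 4) = r by ring]; exact hn)
  refine h5.trans ?_
  apply mul_le_mul_of_nonneg_left _ (by positivity)
  exact exp_q h2 hd (by positivity) (by linarith) (by linarith)

/-- Square integrals are bounded where the mass is at most `π`. -/
theorem l2b (h1 : S_RJS) (h2 : S_JEN) : S_L2B := by
  intro 𝒰 Λ R L ρ g w hR hL hΛ hS a r hr haR hm
  obtain ⟨C, -, hC⟩ := powb h1 h2 𝒰 Λ R L ρ g w hL hΛ hS a r Real.pi 2 hr haR Real.pi_pos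
    (by norm_num) (by nlinarith [Real.pi_pos]) hm
  refine ⟨C, ?_⟩
  filter_upwards [hC] with n hn
  simpa only [Real.rpow_two] using hn

/-- No small atoms. -/
theorem nsa (h1 : S_RJS) (h2 : S_JEN) : S_NSA := by
  intro 𝒰 Λ R L ρ g w hR hL hΛ hS a r β hr haR hβ hm κ hκ
  have hpi := Real.pi_pos
  set τ : ℝ := max β Real.pi with hτdef
  have hτ : 0 < τ := lt_of_lt_of_le hpi (le_max_right _ _)
  have hτ4 : τ < 4 * Real.pi := max_lt hβ (by linarith)
  set q : ℝ := (1 + 4 * Real.pi / τ) / 2 with hqdef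
  have h41 : 1 < 4 * Real.pi / τ := by rwa [one_lt_div hτ]
  have hq1 : 1 < q := by rw [hqdef]; linarith
  have hqτ : q * τ < 4 * Real.pi := by
    have : q * τ = (τ + 4 * Real.pi) / 2 := by rw [hqdef]; field_simp
    rw [this]; linarith
  obtain ⟨D, hD0, hD⟩ := powb h1 h2 𝒰 Λ R L ρ g w hL hΛ hS a r τ q hr haR hτ hq1.le hqτ
    (hm.mono fun n hn => hn.trans (le_max_left _ _))
  -- choice of A
  obtain ⟨A, hA0, hA⟩ : ∃ A : ℝ, 0 < A ∧ A ^ (-(q - 1)) * D ≤ κ / 2 := by
    have ht := (tendsto_rpow_neg_atTop (y := q - 1) (by linarith)).mul_const D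
    rw [zero_mul] at ht
    have h6 := (ht.eventually_lt_const (show (0 : ℝ) < κ / 2 by positivity)).and
      (eventually_gt_atTop 0)
    obtain ⟨A, hA1, hA2⟩ := h6.exists
    exact ⟨A, hA2, hA1.le⟩
  -- choice of s
  obtain ⟨s, hs0, hsr, hsA⟩ : ∃ s : ℝ, 0 < s ∧ s ≤ r / 4 ∧ A * (Real.pi * s ^ 2) ≤ κ / 2 := by
    refine ⟨min (r / 4) (min 1 (κ / (2 * A * Real.pi))), by positivity, min_le_left _ _, ?_⟩
    set s := min (r / 4) (min 1 (κ / (2 * A * Real.pi))) with hs
    have hs0 : 0 < s := by rw [hs]; positivity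
    have hs1 : s ≤ 1 := (min_le_right _ _).trans (min_le_left _ _)
    have hs2 : s ≤ κ / (2 * A * Real.pi) := (min_le_right _ _).trans (min_le_right _ _)
    have hs3 : s ^ 2 ≤ s := by nlinarith
    calc A * (Real.pi * s ^ 2) ≤ A * (Real.pi * (κ / (2 * A * Real.pi))) := by
          gcongr
          exact hs3.trans hs2
      _ = κ / 2 := by field_simp
  refine ⟨s, hs0, ?_⟩
  filter_upwards [hD, hS 1 one_pos] with n hn hd
  have hpt : ∀ x : ℂ, ρ n x ≤ A + A ^ (-(q - 1)) * ρ n x ^ q := by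
    intro x
    have hx0 := hd.nonneg x
    by_cases hx : ρ n x ≤ A
    · have : 0 ≤ A ^ (-(q - 1)) * ρ n x ^ q := by positivity
      linarith
    · push Not at hx
      have hxp : 0 < ρ n x := hA0.trans hx
      have h7 : ρ n x = ρ n x ^ (-(q - 1)) * ρ n x ^ q := by
        rw [← Real.rpow_add hxp]
        simp
      have h8 : ρ n x ^ (-(q - 1)) ≤ A ^ (-(q - 1)) :=
        Real.rpow_le_rpow_of_nonpos hA0 hx.le (by linarith)
      have h9 : ρ n x ^ (-(q - 1)) * ρ n x ^ q ≤ A ^ (-(q - 1)) * ρ n x ^ q :=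
        mul_le_mul_of_nonneg_right h8 (by positivity)
      linarith
  have hcq : Continuous fun x => ρ n x ^ q :=
    hd.diff.continuous.rpow_const fun x => Or.inr (by linarith)
  have hiq : ∀ t : ℝ, IntegrableOn (fun x => ρ n x ^ q) (ball a t) := fun t =>
    (hcq.continuousOn.integrableOn_compact (isCompact_closedBall a t)).mono_set
      ball_subset_closedBall
  have hfin : IntegrableOn (fun _ : ℂ => A) (ball a s) :=
    integrableOn_const (by rw [Complex.volume_ball]; finiteness)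
  calc ms (ρ n) a s ≤ ∫ x in ball a s, (A + A ^ (-(q - 1)) * ρ n x ^ q) := by
        apply setIntegral_mono (int_rho hd).integrableOn
        · exact hfin.add ((hiq s).const_mul _)
        · exact hpt
    _ = A * (Real.pi * s ^ 2) + A ^ (-(q - 1)) * ∫ x in ball a s, ρ n x ^ q := by
        rw [integral_add hfin ((hiq s).const_mul _), setIntegral_const, smul_eq_mul,
          Measure.real, vol_ball a s hs0.le, integral_const_mul, mul_comm A]
    _ ≤ κ / 2 + κ / 2 := by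
        apply add_le_add hsA
        refine le_trans ?_ hA
        apply mul_le_mul_of_nonneg_left _ (by positivity)
        refine le_trans ?_ hn
        apply setIntegral_mono_set (hiq (r / 4))
        · exact (Eventually.of_forall fun x => Real.rpow_nonneg (hd.nonneg x) q)
        · exact (ball_subset_ball hsr).eventuallyLE
    _ = κ := by ring

/-- Vanishing. -/
theorem nav (h1 : S_RJS) (h2 : S_MC) (_h3 : S_MONO) : S_NAV := by
  intro 𝒰 Λ R L ρ g w hR hL hΛ hS b s hs hbR hA a r β hr haR hβ hm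
  have hpi := Real.pi_pos
  set τ : ℝ := max β Real.pi with hτdef
  have hτ : 0 < τ := lt_of_lt_of_le hpi (le_max_right _ _)
  have hτ4 : τ < 4 * Real.pi := max_lt hβ (by linarith)
  obtain ⟨ε, C, hε, hC, H⟩ := h1 τ 1 Λ (r / 4 * L) hτ le_rfl (by linarith) hΛ (by positivity)
  obtain ⟨C', hC'⟩ := h2 Λ R L a b (r / 4) s hΛ hL (by positivity) hs (by linarith) hbR
  rw [Metric.tendsto_nhds]
  intro δ hδ
  -- choice of A
  obtain ⟨A, hAδ⟩ : ∃ A : ℝ, C * (r / 4) ^ 2 * Real.exp (C' - A) < δ := by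
    have ht : Tendsto (fun A : ℝ => C * (r / 4) ^ 2 * Real.exp (C' - A)) atTop (𝓝 0) := by
      have h6 : Tendsto (fun A : ℝ => Real.exp (C' - A)) atTop (𝓝 0) :=
        Real.tendsto_exp_atBot.comp (tendsto_atBot_add_const_left _ C' tendsto_neg_atTop_atBot)
      simpa using h6.const_mul (C * (r / 4) ^ 2)
    exact (ht.eventually_lt_const hδ).exists
  filter_upwards [hm, hS ε hε, hS 1 one_pos, hA A] with n hn hd hd1 hav
  have h5 := H R L (ρ n) (g n) (w n) hL hd a (r / 4) (by positivity) (by linarith) le_rfl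
    (by rw [show 4 * (r / 4) = r by ring]; exact hn.trans (le_max_left _ _))
  have h6 := hC' _ _ _ hd1
  rw [abs_le] at h6
  have h7 : ms (ρ n) a (r / 4) ≤ C * (r / 4) ^ 2 * Real.exp (C' - A) := by
    have h8 : ms (ρ n) a (r / 4) = ∫ x in ball a (r / 4), ρ n x ^ (1 : ℝ) := by
      simp only [ms, Real.rpow_one]
    rw [h8]
    refine h5.trans ?_
    apply mul_le_mul_of_nonneg_left _ (by positivity)
    apply Real.exp_le_exp.mpr
    linarith [h6.2]
  rw [Real.dist_eq, sub_zero, abs_of_nonneg (ms_nonneg hd a _)]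
  exact lt_of_le_of_lt h7 hAδ

end Pool.Agent.W11.PSR
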